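import Pool.Agent.R269.SierFin

/-!
The Sierpinski space contains no isometric copy of the sum of two copies of `c₀` with the sum norm.
-/

set_option autoImplicit false

open Pool.Agent.R269.Sier
open scoped ZeroAtInfty

namespace Pool.Agent.Results.MP_adcce9_an.NoCZeroSum

/-- For every bijection `f : ℕ → ℚ` there is no linear isometric embedding of `c₀ × c₀` (with the
sum of the norms) into the Sierpinski space of `f`. -/
theorem result : ∀ f : ℕ → ℚ, Function.Bijective f →
    IsEmpty (WithLp 1 (C₀(ℕ, ℝ) × C₀(ℕ, ℝ)) →ₗᵢ[ℝ] Sierpinski f) :=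
  fun f _ => ⟨fun E => no_c0 f E⟩

end Pool.Agent.Results.MP_adcce9_an.NoCZeroSum
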