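import Pool.Agent.R269.SierFin

/-!
The Sierpinski space contains no isometric copy of the sum of two copies of `ℓ₁` with the maximum
norm.
-/

set_option autoImplicit false

open Pool.Agent.R269.Sier

namespace Pool.Agent.Results.MP_adcce9_an.NoEllOneSum

/-- For every bijection `f : ℕ → ℚ` there is no linear isometric embedding of `ℓ₁ × ℓ₁` (with the
maximum norm) into the Sierpinski space of `f`. -/
theorem result : ∀ f : ℕ → ℚ, Function.Bijective f →
    IsEmpty ((lp (fun _ : ℕ => ℝ) 1 × lp (fun _ : ℕ => ℝ) 1) →ₗᵢ[ℝ] Sierpinski f) :=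
  fun f _ => ⟨fun E => no_l1 f E⟩

end Pool.Agent.Results.MP_adcce9_an.NoEllOneSum
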